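import Pool.Agent.Helper45.QB.Ring1

/-!
# Project QB, module A2b: closed sets
-/

set_option autoImplicit false
set_option linter.unusedVariables false

namespace Pool.Agent.Helper33.QB

open Set

section A2

variable {Ω : Type} {Y : Set Ω} {R : Set (Set Ω)} {r r' : Ω → Ordinal.{0}}

theorem Cl.self (h : GR Y R r) : Cl Y R Y :=
  ⟨Subset.rfl, fun _ hx hn => absurd hx hn⟩

theorem Cl.empty (h : GR Y R r) : Cl Y R ∅ :=
  ⟨empty_subset _, fun x hx _ => by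
    obtain ⟨K, hK, hxK⟩ := h.cov x hx
    exact ⟨K, hK, hxK, inter_empty _⟩⟩

theorem Cl.of_mem (h : GR Y R r) {K : Set Ω} (hK : K ∈ R) : Cl Y R K :=
  ⟨h.sub K hK, fun x hx hn => by
    obtain ⟨K', hK', hxK⟩ := h.cov x hx
    exact ⟨K' \ K, h.df _ hK' _ hK, ⟨hxK, hn⟩, sdiff_inter_self⟩⟩

theorem Cl.inter {C C' : Set Ω} (hC : Cl Y R C) (hC' : Cl Y R C') : Cl Y R (C ∩ C') := by
  refine ⟨fun x hx => hC.1 hx.1, fun x hx hn => ?_⟩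
  by_cases hxC : x ∈ C
  · have hxC' : x ∉ C' := fun h => hn ⟨hxC, h⟩
    obtain ⟨K, hK, hxK, he⟩ := hC'.2 x hx hxC'
    refine ⟨K, hK, hxK, ?_⟩
    rw [← subset_empty_iff, ← he]
    exact fun y hy => ⟨hy.1, hy.2.2⟩
  · obtain ⟨K, hK, hxK, he⟩ := hC.2 x hx hxC
    refine ⟨K, hK, hxK, ?_⟩
    rw [← subset_empty_iff, ← he]
    exact fun y hy => ⟨hy.1, hy.2.1⟩

theorem Cl.union (h : GR Y R r) {C C' : Set Ω} (hC : Cl Y R C) (hC' : Cl Y R C') :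
    Cl Y R (C ∪ C') := by
  refine ⟨union_subset hC.1 hC'.1, fun x hx hn => ?_⟩
  obtain ⟨K, hK, hxK, he⟩ := hC.2 x hx fun h => hn (Or.inl h)
  obtain ⟨K', hK', hxK', he'⟩ := hC'.2 x hx fun h => hn (Or.inr h)
  refine ⟨K ∩ K', h.inter hK hK', ⟨hxK, hxK'⟩, ?_⟩
  rw [← subset_empty_iff]
  rintro y ⟨⟨hy, hy'⟩, hyC | hyC⟩
  · rw [← he]; exact ⟨hy, hyC⟩
  · rw [← he']; exact ⟨hy', hyC⟩

private theorem h46_avoid (h : GR Y R r) {x : Ω} (hx : x ∈ Y) {F : Set Ω} (hF : F.Finite) :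
    F ⊆ Y → x ∉ F → ∃ K ∈ R, x ∈ K ∧ K ∩ F = ∅ := by
  induction F, hF using Set.Finite.induction_on with
  | empty =>
    intro _ _
    obtain ⟨K, hK, hxK⟩ := h.cov x hx
    exact ⟨K, hK, hxK, inter_empty _⟩
  | @insert a s ha hs ih =>
    intro hY hxs
    obtain ⟨K, hK, hxK, he⟩ := ih (fun y hy => hY (mem_insert_of_mem _ hy))
      fun hh => hxs (mem_insert_of_mem _ hh)
    obtain ⟨K', hK', hxK', haK'⟩ := h.sep x hx a (hY (mem_insert _ _))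
      fun hh => hxs (hh ▸ mem_insert _ _)
    refine ⟨K ∩ K', h.inter hK hK', ⟨hxK, hxK'⟩, ?_⟩
    rw [← subset_empty_iff]
    rintro y ⟨⟨hy, hy'⟩, hyC⟩
    rcases mem_insert_iff.mp hyC with rfl | hys
    · exact absurd hy' haK'
    · rw [← he]; exact ⟨hy, hys⟩

/-- A set which meets every member of `R` in a finite set is closed. -/
theorem Cl.of_finite (h : GR Y R r) {C : Set Ω} (hC : C ⊆ Y) (hf : ∀ K ∈ R, (K ∩ C).Finite) :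
    Cl Y R C := by
  refine ⟨hC, fun x hx hn => ?_⟩
  obtain ⟨K, hK, hxK⟩ := h.cov x hx
  obtain ⟨K', hK', hxK', he⟩ := h46_avoid h hx (hf K hK) (fun y hy => hC hy.2)
    fun hh => hn hh.2
  refine ⟨K ∩ K', h.inter hK hK', ⟨hxK, hxK'⟩, ?_⟩
  rw [← subset_empty_iff, ← he]
  rintro y ⟨⟨hy, hy'⟩, hyC⟩
  exact ⟨hy', hy, hyC⟩

/-- The complement of a set with finite... open sets: a union of members of `R`. -/
theorem Cl.compl (h : GR Y R r) {U : Set Ω} (hU : ∀ x ∈ U, ∃ K ∈ R, x ∈ K ∧ K ⊆ U) :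
    Cl Y R (Y \ U) := by
  refine ⟨sdiff_subset, fun x hx hn => ?_⟩
  have hxU : x ∈ U := by
    by_contra hxU
    exact hn ⟨hx, hxU⟩
  obtain ⟨K, hK, hxK, hKU⟩ := hU x hxU
  refine ⟨K, hK, hxK, ?_⟩
  rw [← subset_empty_iff]
  rintro y ⟨hy, hyY, hyU⟩
  exact absurd (hKU hy) hyU

theorem Cl.trans {E C : Set Ω} (hE : Cl Y R E) (hC : Cl E (tr R E) C) (h : GR Y R r) :
    Cl Y R C := by
  refine ⟨hC.1.trans hE.1, fun x hx hn => ?_⟩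
  by_cases hxE : x ∈ E
  · obtain ⟨O, ⟨K, hK, rfl⟩, hxO, he⟩ := hC.2 x hxE hn
    refine ⟨K, hK, hxO.1, ?_⟩
    rw [← subset_empty_iff, ← he]
    exact fun y hy => ⟨⟨hy.1, hC.1 hy.2⟩, hy.2⟩
  · obtain ⟨K, hK, hxK, he⟩ := hE.2 x hx hxE
    refine ⟨K, hK, hxK, ?_⟩
    rw [← subset_empty_iff, ← he]
    exact fun y hy => ⟨hy.1, hC.1 hy.2⟩

theorem Cl.tr {E C : Set Ω} (hE : Cl Y R E) (hC : Cl Y R C) (hCE : C ⊆ E) :
    Cl E (tr R E) C := by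
  refine ⟨hCE, fun x hx hn => ?_⟩
  obtain ⟨K, hK, hxK, he⟩ := hC.2 x (hE.1 hx) hn
  refine ⟨K ∩ E, ⟨K, hK, rfl⟩, ⟨hxK, hx⟩, ?_⟩
  rw [← subset_empty_iff, ← he]
  exact fun y hy => ⟨hy.1.1, hy.2⟩

theorem tr_tr {E E' : Set Ω} (h : E' ⊆ E) : tr (tr R E) E' = tr R E' := by
  ext O
  constructor
  · rintro ⟨_, ⟨K, hK, rfl⟩, rfl⟩
    exact ⟨K, hK, by rw [inter_assoc, inter_eq_self_of_subset_right h]⟩
  · rintro ⟨K, hK, rfl⟩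
    exact ⟨K ∩ E, ⟨K, hK, rfl⟩, by rw [inter_assoc, inter_eq_self_of_subset_right h]⟩

/-- Clopen subspaces. -/
theorem GR.clopen (h : GR Y R r) {A : Set Ω} (hAY : A ⊆ Y) (hA : ∀ K ∈ R, K ∩ A ∈ R) :
    GR A (QB.tr R A) r where
  sub := by
    rintro _ ⟨K, hK, rfl⟩
    exact inter_subset_right
  emp := ⟨∅, h.emp, (empty_inter A).symm⟩
  un := by
    rintro _ ⟨K, hK, rfl⟩ _ ⟨K', hK', rfl⟩
    exact ⟨K ∪ K', h.un _ hK _ hK', (union_inter_distrib_right K K' A).symm⟩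
  df := by
    rintro _ ⟨K, hK, rfl⟩ _ ⟨K', hK', rfl⟩
    refine ⟨K \ K', h.df _ hK _ hK', ?_⟩
    ext x
    simp only [mem_sdiff, mem_inter_iff, not_and]
    tauto
  cov := fun x hx => by
    obtain ⟨K, hK, hxK⟩ := h.cov x (hAY hx)
    exact ⟨K ∩ A, ⟨K, hK, rfl⟩, hxK, hx⟩
  sep := fun x hx y hy hxy => by
    obtain ⟨K, hK, hxK, hyK⟩ := h.sep x (hAY hx) y (hAY hy) hxy
    exact ⟨K ∩ A, ⟨K, hK, rfl⟩, ⟨hxK, hx⟩, fun hh => hyK hh.1⟩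
  top := by
    rintro _ ⟨K, hK, rfl⟩ hne
    exact h.top _ (hA K hK) hne
  ex := by
    rintro _ ⟨K, hK, rfl⟩
    exact h.ex _ (hA K hK)

theorem mem_tr_clopen (h : GR Y R r) {A : Set Ω} (hA : ∀ K ∈ R, K ∩ A ∈ R) {O : Set Ω} :
    O ∈ tr R A ↔ O ∈ R ∧ O ⊆ A := by
  constructor
  · rintro ⟨K, hK, rfl⟩
    exact ⟨hA K hK, inter_subset_right⟩
  · rintro ⟨hO, hOA⟩
    exact ⟨O, hO, (inter_eq_self_of_subset_left hOA).symm⟩

private theorem h46_glue (h : GR Y R r) {C B : Set Ω} (hC : Cl Y R C) (hB : Cl Y R B) (hd : C ∩ B = ∅)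
    {K1 : Set Ω} (hK1 : K1 ∈ R) :
    ∃ K ∈ R, K ∩ C = K1 ∩ C ∧ K ∩ B = ∅ := by
  obtain ⟨F, hFU, hF, hcov⟩ := h.compact_cl hB hK1 (U := {K | K ∈ R ∧ K ∩ C = ∅}) (fun K hK => hK.1)
    (by
      rintro x ⟨hxK, hxB⟩
      have hxC : x ∉ C := fun hh => by
        have : x ∈ C ∩ B := ⟨hh, hxB⟩
        rw [hd] at this
        exact this
      obtain ⟨K, hK, hxK', he⟩ := hC.2 x (hB.1 hxB) hxC
      exact mem_sUnion.mpr ⟨K, ⟨hK, he⟩, hxK'⟩)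
  refine ⟨K1 \ ⋃₀ F, h.df _ hK1 _ (h.sUnion hF fun K hK => (hFU hK).1), ?_, ?_⟩
  · ext x
    constructor
    · rintro ⟨⟨hx, _⟩, hxC⟩
      exact ⟨hx, hxC⟩
    · rintro ⟨hx, hxC⟩
      refine ⟨⟨hx, ?_⟩, hxC⟩
      rintro ⟨K, hKF, hxK⟩
      have : x ∈ K ∩ C := ⟨hxK, hxC⟩
      rw [(hFU hKF).2] at this
      exact this
  · rw [← subset_empty_iff]
    rintro x ⟨⟨hx, hn⟩, hxB⟩
    exact absurd (hcov ⟨hx, hxB⟩) hn

/-- Traces on two disjoint closed sets can be prescribed independently. -/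
theorem GR.glue (h : GR Y R r) {C B : Set Ω} (hC : Cl Y R C) (hB : Cl Y R B) (hd : C ∩ B = ∅)
    {K1 K2 : Set Ω} (hK1 : K1 ∈ R) (hK2 : K2 ∈ R) :
    ∃ K ∈ R, K ∩ C = K1 ∩ C ∧ K ∩ B = K2 ∩ B := by
  obtain ⟨L1, hL1, e1, e2⟩ := h46_glue h hC hB hd hK1
  obtain ⟨L2, hL2, e3, e4⟩ := h46_glue h hB hC (by rw [inter_comm]; exact hd) hK2
  refine ⟨L1 ∪ L2, h.un _ hL1 _ hL2, ?_, ?_⟩
  · rw [union_inter_distrib_right, e1, e4, union_empty]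
  · rw [union_inter_distrib_right, e2, e3, empty_union]

end A2

end Pool.Agent.Helper33.QB
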